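import Pool.Agent.Q170.UA.Cnt
import Pool.Agent.Q26.UA.BNU
import Pool.Agent.Q177.UA.BND

/-!
# The uniform theorem, unconditionally
-/

set_option autoImplicit false
set_option linter.unusedSectionVars false

open UpperHalfPlane H294ZP Polynomial IsDedekindDomain NumberField

namespace Pool.Agent.Q170.UA

open Pool.Agent.Y226 Pool.Agent.Y226.ZG Pool.Agent.Y226.ZM Pool.Agent.Y226.ZU Pool.Agent.Y92.ZX
open Pool.Agent.Q170.FP Pool.Agent.Q170.UZ Pool.Agent.Q170.UV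

/-- The uniform theorem. -/
theorem uniform_all (n d₀ W : ℕ) : ∃ D : ℕ, ∀ δ B : ℕ, ∃ G : ℕ,
    ∀ (K : Type) [Field K] [NumberField K]
    (σ : K →+* ℂ) (v : HeightOneSpectrum (𝓞 K)) (p : ℕ), p.Prime → D < p → (p : 𝓞 K) ∈ v.asIdeal →
    (p : 𝓞 K) ∉ v.asIdeal ^ 2 → Nat.card (𝓞 K ⧸ v.asIdeal) ≤ B →
    ∀ (κ : Type) (F : κ → MvPolynomial (Fin n × Bool) (𝓞 K)),
    GoodRed v d₀ F → (∀ t, ∀ m ∈ (F t).support, ∀ q, m q ≤ δ) →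
    ∀ (lam : Fin n → K) (e : ℕ) (w : Fin n → ℕ), 0 < e →
    (∀ i, 0 < w i ∧ w i ≤ W ∧ v.valuation K (lam i) = WithZero.exp ((w i * e : ℕ) : ℤ)) →
    (∀ (r : ℕ) (Z : SV (intAt σ v) n r), r < n →
      {x : Fin n → ℂ | (∃ y ∈ VK σ F, ∀ i, x i = σ (lam i) * y i) ∧ x ∈ Z.locus}.Finite) ∧
    (∀ (r : ℕ) (Z : SV (intAt σ v) n r), r + 2 ≤ n → ∀ x ∈ Z.locus,
      (∃ y ∈ VK σ F, ∀ i, x i = σ (lam i) * y i) →
      ∃ a : Fin n, (∀ i, Z.cls i = none → i = a) ∧ ∀ j l c, j ≠ l → j ≠ a → l ≠ a →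
        Z.cls j = some c → Z.cls l = some c → Iso G (x j) (x l)) ∧
    {x : Fin n → ℂ | (∃ y ∈ VK σ F, ∀ i, x i = σ (lam i) * y i) ∧
      ∃ (r : ℕ) (Z : SV (intAt σ v) n r), r + 2 ≤ n ∧ x ∈ Z.locus}.Finite ∧
    {x : Fin n → ℂ | (∃ y ∈ VK σ F, ∀ i, x i = σ (lam i) * y i) ∧
      ∃ (r : ℕ) (Z : SV (intAt σ v) n r), r + 2 ≤ n ∧ x ∈ Z.locus}.ncard ≤ G :=
  uniform (Pool.Agent.Q177.UA.BND.t_BND Pool.Agent.Q26.UA.t_BNU) n d₀ W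

end Pool.Agent.Q170.UA
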